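import Pool.Agent.V11121.RBW

/-!
# Sparse classes of bounded reduced bandwidth have linear expansion
-/

set_option autoImplicit false

namespace Pool.Agent.Results.MP_f5a5c1_co.LinearExpansion

open Pool.Agent.V11121.RBW

/-- If `G` has no subgraph `K_{t,t}`, where `t ≥ 2`, and reduced bandwidth at most `k`, then every
`r`-shallow minor `H` of `G` has at most `(8 k r + 2 k + 3) (t - 1) |V(H)|` edges. Hence every
monotone class that excludes a fixed complete bipartite subgraph and has bounded reduced bandwidth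
has linear expansion. -/
theorem result :
    (∀ (k t r : ℕ) (G H : FG), 2 ≤ t → ¬ HasBiclique G.G t t → ReducedBandwidthLE G k →
      IsShallowMinor r H G →
      H.G.edgeSet.ncard ≤ ((8 * (k * r) + 2 * k + 3) * (t - 1)) * Nat.card H.V) ∧
    ∀ C : FG → Prop, Monotone C → (∃ t, ∀ G, C G → ¬ HasBiclique G.G t t) →
      (∃ k, ∀ G, C G → ReducedBandwidthLE G k) →
      ∃ c : ℝ, ∀ G, C G → ∀ (r : ℕ) (H : FG), IsShallowMinor r H G →
        (H.G.edgeSet.ncard : ℝ) ≤ c * (r + 1) * (Nat.card H.V : ℝ) := by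
  constructor
  · intro k t r G H ht hG hk hH
    exact shallow_bound hk ht hG hH
  · rintro C _ ⟨t, ht⟩ ⟨k, hk⟩
    obtain ⟨c, hc⟩ := linear_expansion C ht hk
    exact ⟨c, hc⟩

end Pool.Agent.Results.MP_f5a5c1_co.LinearExpansion
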